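import Pool.Agent.TF82.Base

/-! Two nonadjacent vertices with at least as many common neighbours as the independence number
may be joined without changing `Cov`. -/

namespace Pool.Agent.TFC

open List Pool.Agent.TF82

universe u

set_option linter.unusedSectionVars false
set_option linter.unusedVariables false

variable {V : Type u} [DecidableEq V]

/-- a chain from `s` to `t` -/
structure Seg (G : SimpleGraph V) (l : List V) (s t : V) : Prop where
  ch : l.IsChain G.Adj
  hd : l.head? = some s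
  lt : l.getLast? = some t

theorem Seg.rev {G : SimpleGraph V} {l : List V} {s t : V} (h : Seg G l s t) :
    Seg G l.reverse t s := by
  refine ⟨?_, ?_, ?_⟩
  · rw [List.isChain_reverse]
    exact h.ch.imp (fun _ _ h => h.symm)
  · rw [List.head?_reverse, h.lt]
  · rw [List.getLast?_reverse, h.hd]

theorem Seg.pos {G : SimpleGraph V} {l : List V} {s t : V} (h : Seg G l s t) :
    1 ≤ l.length := by
  rcases l with _ | ⟨x, l⟩
  · have := h.hd
    simp at this
  · simp

theorem Seg.append {G : SimpleGraph V} {X Y : List V} {a1 b1 a2 b2 : V} (hX : Seg G X a1 b1)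
    (hY : Seg G Y a2 b2) (h : G.Adj b1 a2) : Seg G (X ++ Y) a1 b2 := by
  refine ⟨?_, ?_, ?_⟩
  · rw [List.isChain_append]
    refine ⟨hX.ch, hY.ch, ?_⟩
    intro x hx y hy
    rw [hX.lt] at hx
    rw [hY.hd] at hy
    simp only [Option.mem_def, Option.some.injEq] at hx hy
    rw [← hx, ← hy]
    exact h
  · rw [List.head?_append, hX.hd]
    rfl
  · rw [List.getLast?_append, hY.lt]
    rfl

/-- three chains with adjacent ends form a cycle -/
theorem cyc3 {G : SimpleGraph V} {X Y Z : List V} {a1 b1 a2 b2 a3 b3 : V} (hX : Seg G X a1 b1)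
    (hY : Seg G Y a2 b2) (hZ : Seg G Z a3 b3) (h12 : G.Adj b1 a2) (h23 : G.Adj b2 a3)
    (h31 : G.Adj b3 a1) (hn : (X ++ Y ++ Z).Nodup) : CycL G (X ++ Y ++ Z) := by
  have h := (hX.append hY h12).append hZ h23
  refine ⟨hn, ?_, h.ch, ?_⟩
  · have h1 := hX.pos
    have h2 := hY.pos
    have h3 := hZ.pos
    simp only [List.length_append]
    omega
  · intro x hx y hy
    rw [h.lt] at hx
    rw [h.hd] at hy
    simp only [Option.mem_def, Option.some.injEq] at hx hy
    rw [← hx, ← hy]
    exact h31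

/-- cutting a path before one of its vertices -/
theorem split_path {G : SimpleGraph V} {p : List V} {a b y : V} (hn : p.Nodup)
    (hp : Seg G p a b) (hy : y ∈ p) (hya : y ≠ a) :
    ∃ A B, p = A ++ (y :: B) ∧ Seg G A a (p.prev y hy) ∧ Seg G (y :: B) y b := by
  obtain ⟨A, B, hAB⟩ := List.append_of_mem hy
  have hA : A ≠ [] := by
    rintro rfl
    have := hp.hd
    rw [hAB] at this
    simp at this
    exact hya this
  have hch := hp.ch
  rw [hAB, List.isChain_append] at hch
  refine ⟨A, B, hAB, ⟨hch.1, ?_, ?_⟩, ⟨hch.2.1, rfl, ?_⟩⟩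
  · have := hp.hd
    rw [hAB, List.head?_append] at this
    rcases A with _ | ⟨x, A⟩
    · exact absurd rfl hA
    · simpa using this
  · have hr : p ~r (y :: (B ++ A)) := by
      rw [hAB]
      exact List.isRotated_append (l := A) (l' := y :: B)
    rw [prev_of_rot hn hr hy, List.getLast?_eq_getLast_of_ne_nil hA]
    congr 1
    rw [List.getLast_cons (by simp [hA]), List.getLast_append_of_ne_nil _ hA]
  · have := hp.lt
    rw [hAB, List.getLast?_append_of_ne_nil _ (by simp)] at this
    exact this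

/-- opening a cycle before one of its vertices -/
theorem open_at {G : SimpleGraph V} {c : List V} (hc : CycL G c) {y : V} (hy : y ∈ c) :
    ∃ B, c ~r (y :: B) ∧ Seg G (y :: B) y (c.prev y hy) := by
  obtain ⟨r, hr⟩ := rot_cons hy
  have hc' := hc.of_isRotated hr
  refine ⟨r, hr, hc'.2.2.1, rfl, ?_⟩
  rw [prev_of_rot hc.1 hr hy, List.getLast?_eq_getLast_of_ne_nil (by simp)]

/-- opening a cycle before two of its vertices -/
theorem open_two {G : SimpleGraph V} {c : List V} (hc : CycL G c) {y z : V} (hy : y ∈ c)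
    (hz : z ∈ c) (hyz : y ≠ z) :
    ∃ A B, c ~r ((y :: A) ++ (z :: B)) ∧ Seg G (y :: A) y (c.prev z hz) ∧
      Seg G (z :: B) z (c.prev y hy) := by
  obtain ⟨A, B, hr, e1, e2⟩ := split_two hc.1 hy hz hyz
  have hCr := hc.of_isRotated hr
  have hch := hCr.2.2.1
  rw [List.isChain_append] at hch
  refine ⟨A, B, hr, ⟨hch.1, rfl, ?_⟩, ⟨hch.2.1, rfl, ?_⟩⟩
  · rw [List.getLast?_eq_getLast_of_ne_nil (by simp), ← e1]
  · rw [List.getLast?_eq_getLast_of_ne_nil (by simp), ← e2]

/-- a new cycle on the path and some of the cycles gives a cover -/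
theorem cov_of {G : SimpleGraph V} {k : ℕ} {p : List V} {M N M' : List (List V)}
    (hlen : M.length + 1 ≤ k) (hM : ∀ c ∈ M, CycL G c) (hnod : (p ++ M.flatten).Nodup)
    (hmem : ∀ x, x ∈ p ++ M.flatten) (hperm : M.Perm (N ++ M')) {c0 : List V}
    (hc0 : CycL G c0) (hp : c0.Perm (p ++ N.flatten)) : Cov G k := by
  have h1 : (c0 ++ M'.flatten).Perm (p ++ M.flatten) := by
    refine (hp.append_right _).trans ?_
    rw [List.append_assoc, ← List.flatten_append]
    exact (List.Perm.flatten hperm.symm).append_left p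
  refine ⟨c0 :: M', ?_, ?_, ?_, ?_⟩
  · have := hperm.length_eq
    simp only [List.length_append, List.length_cons] at this ⊢
    omega
  · intro c hc
    rcases List.mem_cons.1 hc with rfl | hc
    · exact hc0
    · exact hM c (hperm.mem_iff.2 (by simp [hc]))
  · rw [List.flatten_cons]
    exact h1.nodup_iff.2 hnod
  · intro x
    rw [List.flatten_cons]
    exact h1.mem_iff.2 (hmem x)

theorem erase_two {M : List (List V)} {c c' : List V} (hc : c ∈ M) (hc' : c' ∈ M)
    (hne : c ≠ c') : ∃ M', M.Perm ([c, c'] ++ M') := by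
  refine ⟨(M.erase c).erase c', ?_⟩
  have h1 : M.Perm (c :: M.erase c) := List.perm_cons_erase hc
  have h2 : c' ∈ M.erase c := (List.mem_erase_of_ne (Ne.symm hne)).2 hc'
  exact h1.trans ((List.perm_cons_erase h2).cons c)

theorem erase_one {M : List (List V)} {c : List V} (hc : c ∈ M) :
    ∃ M', M.Perm ([c] ++ M') := ⟨M.erase c, List.perm_cons_erase hc⟩

/-- both vertices on the path -/
theorem case_pp {G : SimpleGraph V} {p A B A2 B2 : List V} {a b y z w w' : V} (hn : p.Nodup)
    (hAB : p = A ++ (y :: B)) (hA : Seg G A a w) (hB : Seg G (y :: B) y b) (hz : z ∈ B)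
    (hAB2 : p = A2 ++ (z :: B2)) (hA2 : Seg G A2 a w') (hB2 : Seg G (z :: B2) z b)
    (hyz : G.Adj y z) (hbw : G.Adj b w) (haw : G.Adj a w') :
    ∃ c0, CycL G c0 ∧ c0.Perm p := by
  obtain ⟨B3, B4, rfl⟩ := List.append_of_mem hz
  have e : A2 ++ z :: B2 = (A ++ (y :: B3)) ++ z :: B4 := by
    rw [← hAB2, hAB]; simp
  have hn2 : (A2 ++ z :: B2).Nodup := hAB2 ▸ hn
  have hn3 : z ∉ A2 ∧ z ∉ B2 := by
    rw [List.nodup_append, List.nodup_cons] at hn2
    exact ⟨fun h => hn2.2.2 z h z (by simp) rfl, hn2.2.1.1⟩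
  obtain ⟨e1, _, e2⟩ := (List.append_cons_inj_of_notMem hn3.1 hn3.2).1 e
  subst e1
  subst e2
  have hZ : Seg G (y :: B3) y w' := by
    refine ⟨?_, rfl, ?_⟩
    · have := hB.ch
      rw [show y :: (B3 ++ z :: B2) = (y :: B3) ++ z :: B2 from rfl, List.isChain_append] at this
      exact this.1
    · have := hA2.lt
      rwa [List.getLast?_append_of_ne_nil _ (by simp)] at this
  have hperm : (A ++ (z :: B2).reverse ++ (y :: B3)).Perm p := by
    rw [hAB, List.append_assoc]
    apply List.Perm.append_left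
    refine ((List.reverse_perm (z :: B2)).append_right _).trans ?_
    exact List.perm_append_comm
  exact ⟨_, cyc3 hA hB2.rev hZ hbw.symm hyz.symm haw.symm (hperm.nodup_iff.2 hn), hperm⟩

theorem main_pp {G : SimpleGraph V} {p : List V} {a b y z : V} (hn : p.Nodup)
    (hp : Seg G p a b) (hy : y ∈ p) (hz : z ∈ p) (hya : y ≠ a) (hza : z ≠ a) (hyz : G.Adj y z)
    (h1 : G.Adj a (p.prev y hy)) (h2 : G.Adj b (p.prev y hy))
    (h3 : G.Adj a (p.prev z hz)) (h4 : G.Adj b (p.prev z hz)) :
    ∃ c0, CycL G c0 ∧ c0.Perm p := by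
  obtain ⟨A, B, hAB, hA, hB⟩ := split_path hn hp hy hya
  obtain ⟨A2, B2, hAB2, hA2, hB2⟩ := split_path hn hp hz hza
  have hz' : z ∈ A ∨ z ∈ B := by
    rw [hAB, List.mem_append, List.mem_cons] at hz
    rcases hz with h | h | h
    · exact Or.inl h
    · exact absurd h hyz.ne.symm
    · exact Or.inr h
  rcases hz' with h | h
  · have hy' : y ∈ B2 := by
      obtain ⟨A', A'', rfl⟩ := List.append_of_mem h
      have e : A2 ++ z :: B2 = A' ++ z :: (A'' ++ y :: B) := by
        rw [← hAB2, hAB]; simp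
      have hn2 : (A2 ++ z :: B2).Nodup := hAB2 ▸ hn
      have hn3 : z ∉ A2 ∧ z ∉ B2 := by
        rw [List.nodup_append, List.nodup_cons] at hn2
        exact ⟨fun h => hn2.2.2 z h z (by simp) rfl, hn2.2.1.1⟩
      obtain ⟨_, _, e2⟩ := (List.append_cons_inj_of_notMem hn3.1 hn3.2).1 e
      rw [e2]
      simp
    exact case_pp hn hAB2 hA2 hB2 hy' hAB hA hB hyz.symm h4 h1
  · exact case_pp hn hAB hA hB h hAB2 hA2 hB2 hyz h2 h3

/-- one vertex on the path, one on a cycle -/
theorem main_pc {G : SimpleGraph V} {p c : List V} {a b y z : V} (hn : (p ++ c).Nodup)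
    (hp : Seg G p a b) (hc : CycL G c) (hy : y ∈ p) (hz : z ∈ c) (hya : y ≠ a)
    (hyz : G.Adj y z) (h2 : G.Adj b (p.prev y hy)) (h3 : G.Adj a (c.prev z hz)) :
    ∃ c0, CycL G c0 ∧ c0.Perm (p ++ c) := by
  obtain ⟨A, B, hAB, hA, hB⟩ := split_path (List.nodup_append.1 hn).1 hp hy hya
  obtain ⟨E, hE, hS⟩ := open_at hc hz
  have hperm : ((y :: B) ++ A.reverse ++ (z :: E).reverse).Perm (p ++ c) := by
    refine List.Perm.append ?_ ((List.reverse_perm _).trans hE.perm.symm)
    rw [hAB]
    exact ((List.reverse_perm A).append_left _).trans List.perm_append_comm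
  exact ⟨_, cyc3 hB hA.rev hS.rev h2 h3 hyz.symm (hperm.nodup_iff.2 hn), hperm⟩

/-- both vertices on one cycle -/
theorem main_c {G : SimpleGraph V} {p c : List V} {a b y z : V} (hn : (p ++ c).Nodup)
    (hp : Seg G p a b) (hc : CycL G c) (hy : y ∈ c) (hz : z ∈ c)
    (hyz : G.Adj y z) (h2 : G.Adj b (c.prev z hz)) (h3 : G.Adj a (c.prev y hy)) :
    ∃ c0, CycL G c0 ∧ c0.Perm (p ++ c) := by
  obtain ⟨A, B, hr, hA, hB⟩ := open_two hc hy hz hyz.ne
  have hperm : (p ++ (y :: A).reverse ++ (z :: B)).Perm (p ++ c) := by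
    rw [List.append_assoc]
    apply List.Perm.append_left
    exact ((List.reverse_perm _).append_right _).trans hr.perm.symm
  exact ⟨_, cyc3 hp hA.rev hB h2 hyz h3.symm (hperm.nodup_iff.2 hn), hperm⟩

/-- the vertices on two cycles -/
theorem main_cc {G : SimpleGraph V} {p c d : List V} {a b y z : V}
    (hn : (p ++ (c ++ d)).Nodup) (hp : Seg G p a b) (hc : CycL G c) (hd : CycL G d)
    (hy : y ∈ c) (hz : z ∈ d) (hyz : G.Adj y z) (h2 : G.Adj b (c.prev y hy))
    (h3 : G.Adj a (d.prev z hz)) : ∃ c0, CycL G c0 ∧ c0.Perm (p ++ (c ++ d)) := by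
  obtain ⟨A, hA, hSA⟩ := open_at hc hy
  obtain ⟨B, hB, hSB⟩ := open_at hd hz
  have hperm : (p ++ (y :: A).reverse ++ (z :: B)).Perm (p ++ (c ++ d)) := by
    rw [List.append_assoc]
    apply List.Perm.append_left
    exact ((List.reverse_perm _).trans hA.perm.symm).append hB.perm.symm
  exact ⟨_, cyc3 hp hSA.rev hSB h2 hyz h3.symm (hperm.nodup_iff.2 hn), hperm⟩

/-- Two nonadjacent vertices `u`, `v` with at least as many common neighbours as the independence
number may be joined without changing `Cov`. -/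
theorem codeg_step [Fintype V] {G G' : SimpleGraph V} {u v : V}
    (hG' : ∀ x y, G'.Adj x y → G.Adj x y ∨ (x = u ∧ y = v) ∨ (x = v ∧ y = u))
    (T : Finset V) (hT : ∀ w ∈ T, G.Adj u w ∧ G.Adj v w)
    (hα : ∀ I : Finset V, G.IsIndepSet (I : Set V) → I.card ≤ T.card)
    {k : ℕ} (h : Cov G' k) : Cov G k := by
  obtain ⟨L, hL1, hL2, hL3, hL4⟩ := h
  by_cases hall : ∀ c ∈ L, CycL G c
  · exact ⟨L, hL1, hall, hL3, hL4⟩
  push Not at hall
  obtain ⟨c, hcL, hnc⟩ := hall
  obtain ⟨p, a, b, hpc, hpch, hpa, hpb, hab⟩ := open_cycle hG' (hL2 c hcL) hnc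
  obtain ⟨L1, L2, rfl⟩ := List.append_of_mem hcL
  set M := L1 ++ L2 with hM
  have hperm : (L1 ++ c :: L2).flatten.Perm (p ++ M.flatten) := by
    refine (List.Perm.flatten List.perm_middle).trans ?_
    rw [List.flatten_cons]
    exact hpc.symm.append_right _
  have hnod : (p ++ M.flatten).Nodup := hperm.nodup_iff.1 hL3
  have hmem : ∀ x, x ∈ p ++ M.flatten := fun x => hperm.mem_iff.1 (hL4 x)
  have hap : a ∈ p := List.mem_of_head? hpa
  have hbp : b ∈ p := List.mem_of_getLast? hpb
  have hnod' := hnod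
  rw [List.nodup_append] at hnod'
  obtain ⟨hpn, hMn, hdis⟩ := hnod'
  have hpdis : ∀ c' ∈ M, ∀ x ∈ p, x ∉ c' := by
    intro c' hc' x hx hxc
    exact hdis x hx x (List.mem_flatten.2 ⟨c', hc', hxc⟩) rfl
  have hMc : ∀ c' ∈ M, CycL G c' := by
    intro c' hc'
    have h1 : CycL G' c' := hL2 c' (by
      rw [hM, List.mem_append] at hc'
      rw [List.mem_append, List.mem_cons]
      tauto)
    have hua : ∀ x ∈ c', x ≠ a := fun x hx hxa => hpdis c' hc' a hap (hxa ▸ hx)
    have hub : ∀ x ∈ c', x ≠ b := fun x hx hxa => hpdis c' hc' b hbp (hxa ▸ hx)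
    have himp : ∀ x y, x ∈ c' → y ∈ c' → G'.Adj x y → G.Adj x y := by
      intro x y hx hy hxy
      rcases hG' x y hxy with h | h | h
      · exact h
      · exfalso
        rcases hab with h' | h'
        · exact hua x hx (h.1.trans h'.1.symm)
        · exact hub x hx (h.1.trans h'.2.symm)
      · exfalso
        rcases hab with h' | h'
        · exact hub x hx (h.1.trans h'.2.symm)
        · exact hua x hx (h.1.trans h'.1.symm)
    refine ⟨h1.1, h1.2.1, List.IsChain.imp_of_mem_imp himp h1.2.2.1, ?_⟩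
    intro x hx y hy
    exact himp x y (List.mem_of_getLast? hx) (List.mem_of_head? hy) (h1.2.2.2 x hx y hy)
  have hplen : 3 ≤ p.length := by
    rw [hpc.length_eq]
    exact (hL2 c hcL).2.1
  have hTab : ∀ w ∈ T, G.Adj a w ∧ G.Adj b w := by
    intro w hw
    have := hT w hw
    rcases hab with ⟨rfl, rfl⟩ | ⟨rfl, rfl⟩
    · exact this
    · exact ⟨this.2, this.1⟩
  have hlen : M.length + 1 ≤ k := by
    simp only [List.length_append, List.length_cons, hM] at hL1 ⊢
    omega
  have hseg : Seg G p a b := ⟨hpch, hpa, hpb⟩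
  by_contra hno
  -- the list of a vertex
  have hPM : (p :: M).flatten.Nodup := by rw [List.flatten_cons]; exact hnod
  have huniq : ∀ x, ∀ d ∈ p :: M, ∀ d' ∈ p :: M, x ∈ d → x ∈ d' → d = d' := by
    intro x d hd d' hd' hx hx'
    by_contra hne
    have h2 := (List.nodup_flatten.1 hPM).2
    have : Std.Symm (List.Disjoint : List V → List V → Prop) := ⟨fun _ _ h => h.symm⟩
    have h3 := h2.forall hd hd' hne
    exact h3 hx hx'
  have hex : ∀ y, ∃ d, d ∈ p :: M ∧ y ∈ d := by
    intro y
    have := hmem y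
    rw [← List.flatten_cons, List.mem_flatten] at this
    exact this
  choose cy hcM hyc using hex
  have hnd : ∀ y, (cy y).Nodup := fun y => (List.nodup_flatten.1 hPM).1 _ (hcM y)
  let g : V → V := fun y => (cy y).prev y (hyc y)
  have hgmem : ∀ y, g y ∈ cy y := fun y => List.prev_mem _ _ _
  have hginj : Function.Injective g := by
    intro y z hyz
    have h1 : cy y = cy z := by
      apply huniq (g y) _ (hcM y) _ (hcM z) (hgmem y)
      rw [hyz]
      exact hgmem z
    have h2 : (cy y).prev z (h1 ▸ hyc z) = g z := by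
      simp only [g, h1]
    exact prev_inj (hnd y) (hyc y) (h1 ▸ hyc z) (hyz.trans h2.symm)
  have hgsurj : Function.Surjective g := Finite.injective_iff_surjective.1 hginj
  classical
  set F : Finset V := Finset.univ.filter (fun y => g y ∈ T) with hF
  have hFcard : T.card ≤ F.card := by
    calc T.card ≤ (F.image g).card := by
          apply Finset.card_le_card
          intro w hw
          obtain ⟨y, rfl⟩ := hgsurj w
          exact Finset.mem_image_of_mem _ (Finset.mem_filter.2 ⟨Finset.mem_univ _, hw⟩)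
      _ ≤ F.card := Finset.card_image_le
  have hga : g a = b := by
    have h1 : cy a = p := huniq a _ (hcM a) _ (by simp) (hyc a) hap
    have h2 : p.prev a hap = b := by
      rcases p with _ | ⟨y, r⟩
      · simp at hpa
      · simp at hpa
        subst hpa
        rw [List.prev_getLast_cons]
        rw [List.getLast?_eq_getLast_of_ne_nil (by simp)] at hpb
        simpa using hpb
    have h3 : g a = p.prev a hap := by simp only [g, h1]
    rw [h3, h2]
  have haF : a ∉ F := by
    intro h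
    have h1 := (Finset.mem_filter.1 h).2
    rw [hga] at h1
    exact G.loopless.irrefl _ (hTab b h1).2
  -- the two kinds of elements of `F`
  have hkind : ∀ y ∈ F, (∃ hy : y ∈ p, G.Adj a (p.prev y hy) ∧ G.Adj b (p.prev y hy)) ∨
      (∃ d ∈ M, ∃ hy : y ∈ d, G.Adj a (d.prev y hy) ∧ G.Adj b (d.prev y hy)) := by
    intro y hy
    have h1 := hTab _ (Finset.mem_filter.1 hy).2
    rcases List.mem_cons.1 (hcM y) with h | h
    · left
      have h2 : y ∈ p := h ▸ hyc y
      have h3 : g y = p.prev y h2 := by simp only [g, h]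
      exact ⟨h2, by rw [← h3]; exact h1⟩
    · right
      exact ⟨cy y, h, hyc y, h1⟩
  have hfin0 : ∀ c0, CycL G c0 → c0.Perm p → False := by
    intro c0 h1 h2
    exact hno (cov_of (N := []) (M' := M) hlen hMc hnod hmem (List.Perm.refl _) h1 (by simpa using h2))
  have hfin1 : ∀ d ∈ M, ∀ c0, CycL G c0 → c0.Perm (p ++ d) → False := by
    intro d hd c0 h1 h2
    obtain ⟨M', hM'⟩ := erase_one hd
    exact hno (cov_of hlen hMc hnod hmem hM' h1 (by simpa using h2))
  have hfin2 : ∀ d ∈ M, ∀ d' ∈ M, d ≠ d' → ∀ c0, CycL G c0 → c0.Perm (p ++ (d ++ d')) →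
      False := by
    intro d hd d' hd' hne c0 h1 h2
    obtain ⟨M', hM'⟩ := erase_two hd hd' hne
    exact hno (cov_of hlen hMc hnod hmem hM' h1 (by simpa using h2))
  have hdnod : ∀ d ∈ M, (p ++ d).Nodup := by
    intro d hd
    rw [List.nodup_append]
    refine ⟨hpn, (hMc d hd).1, ?_⟩
    rintro x hx y hy rfl
    exact hpdis d hd x hx hy
  have hddnod : ∀ d ∈ M, ∀ d' ∈ M, d ≠ d' → (p ++ (d ++ d')).Nodup := by
    intro d hd d' hd' hne
    rw [List.nodup_append, List.nodup_append]
    refine ⟨hpn, ⟨(hMc d hd).1, (hMc d' hd').1, ?_⟩, ?_⟩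
    · rintro x hx y hy rfl
      exact hne (huniq x d (by simp [hd]) d' (by simp [hd']) hx hy)
    · rintro x hx y hy rfl
      rcases List.mem_append.1 hy with h | h
      · exact hpdis d hd x hx h
      · exact hpdis d' hd' x hx h
  -- `a` is adjacent to no element of `F`
  have hA : ∀ y ∈ F, ¬ G.Adj a y := by
    intro y hy hay
    rcases hkind y hy with ⟨h1, h2, h3⟩ | ⟨d, hd, h1, h2, h3⟩
    · obtain ⟨c0, hc0, hp0⟩ := close_path hpn hplen hpch hpa hpb h1 hay h3
      exact hfin0 c0 hc0 hp0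
    · obtain ⟨c0, hc0, hp0⟩ := join_path hpn hpch hpa hpb (hMc d hd) (hpdis d hd) h1 hay h3
      exact hfin1 d hd c0 hc0 hp0
  -- `F` is independent
  have hB : ∀ y ∈ F, ∀ z ∈ F, ¬ G.Adj y z := by
    intro y hy z hz hyz
    have hya : y ≠ a := fun h => haF (h ▸ hy)
    have hza : z ≠ a := fun h => haF (h ▸ hz)
    rcases hkind y hy with ⟨h1, h2, h3⟩ | ⟨d, hd, h1, h2, h3⟩
    · rcases hkind z hz with ⟨h4, h5, h6⟩ | ⟨d', hd', h4, h5, h6⟩
      · obtain ⟨c0, hc0, hp0⟩ := main_pp hpn hseg h1 h4 hya hza hyz h2 h3 h5 h6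
        exact hfin0 c0 hc0 hp0
      · obtain ⟨c0, hc0, hp0⟩ := main_pc (hdnod d' hd') hseg (hMc d' hd') h1 h4 hya hyz h3 h5
        exact hfin1 d' hd' c0 hc0 hp0
    · rcases hkind z hz with ⟨h4, h5, h6⟩ | ⟨d', hd', h4, h5, h6⟩
      · obtain ⟨c0, hc0, hp0⟩ := main_pc (hdnod d hd) hseg (hMc d hd) h4 h1 hza hyz.symm h6 h2
        exact hfin1 d hd c0 hc0 hp0
      · by_cases hdd : d = d'
        · subst hdd
          obtain ⟨c0, hc0, hp0⟩ := main_c (hdnod d hd) hseg (hMc d hd) h1 h4 hyz h6 h2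
          exact hfin1 d hd c0 hc0 hp0
        · obtain ⟨c0, hc0, hp0⟩ := main_cc (hddnod d hd d' hd' hdd) hseg (hMc d hd)
            (hMc d' hd') h1 h4 hyz h3 h5
          exact hfin2 d hd d' hd' hdd c0 hc0 hp0
  have hS : G.IsIndepSet ((insert a F : Finset V) : Set V) := by
    intro x hx y hy hxy
    rw [Finset.mem_coe, Finset.mem_insert] at hx hy
    rcases hx with rfl | hx
    · rcases hy with rfl | hy
      · exact absurd rfl hxy
      · exact hA y hy
    · rcases hy with rfl | hy
      · exact fun h => hA x hx h.symm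
      · exact hB x hx y hy
  have h1 := hα _ hS
  rw [Finset.card_insert_of_notMem haF] at h1
  omega

end Pool.Agent.TFC
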