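import Pool.Agent.TF82.Base

/-!
Counting in a graph in which two vertices of an independent set have few common neighbours.
-/

namespace Pool.Agent.TFC

open List Pool.Agent.TF82

universe u

set_option linter.unusedSectionVars false
set_option linter.unusedVariables false

variable {V : Type u} [DecidableEq V]

/-- if every sum over `k + 1` elements is at least `n` then the sum over all is at least the proportional amount -/
theorem avg_le (f : V → ℕ) (k n : ℕ) : ∀ s : ℕ, k + 1 ≤ s → ∀ I : Finset V, I.card = s →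
    (∀ J ⊆ I, J.card = k + 1 → n ≤ ∑ v ∈ J, f v) → s * n ≤ (k + 1) * ∑ v ∈ I, f v := by
  intro s hs
  induction s, hs using Nat.le_induction with
  | base =>
    intro I hI h
    exact Nat.mul_le_mul_left _ (h I (Finset.Subset.refl _) hI)
  | succ s hs ih =>
    intro I hI h
    have h1 : ∀ v ∈ I, s * n + (k + 1) * f v ≤ (k + 1) * ∑ v ∈ I, f v := by
      intro v hv
      have h2 := ih (I.erase v) (by rw [Finset.card_erase_of_mem hv, hI]; rfl)
        (fun J hJ hc => h J (hJ.trans (Finset.erase_subset _ _)) hc)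
      have h3 := Finset.sum_erase_add I f hv
      rw [← h3, Nat.mul_add]
      exact Nat.add_le_add_right h2 _
    have h2 := Finset.sum_le_sum h1
    rw [Finset.sum_add_distrib, Finset.sum_const, Finset.sum_const, ← Finset.mul_sum, hI, smul_eq_mul,
      smul_eq_mul] at h2
    have h3 : s * ((s + 1) * n) ≤ s * ((k + 1) * ∑ v ∈ I, f v) := by
      nlinarith [h2]
    exact Nat.le_of_mul_le_mul_left h3 (by omega)

theorem codeg_count [Fintype V] (G : SimpleGraph V) [DecidableRel G.Adj] (k s : ℕ)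
    (I : Finset V) (hI : G.IsIndepSet (I : Set V)) (hs : I.card = s) (hk : k + 2 ≤ s)
    (hσ : ∀ J : Finset V, G.IsIndepSet (J : Set V) → J.card = k + 1 →
      Fintype.card V ≤ ∑ v ∈ J, dU G Finset.univ v)
    (hcd : ∀ u ∈ I, ∀ v ∈ I, u ≠ v →
      (Finset.univ.filter (fun w => G.Adj u w ∧ G.Adj v w)).card < s) :
    Fintype.card V + s + (k + 1) ^ 2 ≤ (k + 1) ^ 2 * (s + k * (k + 1)) := by
  classical
  obtain ⟨n, hn⟩ : ∃ n : ℕ, Fintype.card V = n := ⟨_, rfl⟩
  rw [hn] at hσ ⊢
  obtain ⟨D, hD⟩ : ∃ D : ℕ, D = ∑ v ∈ I, dU G Finset.univ v := ⟨_, rfl⟩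
  have h1 : s * n ≤ (k + 1) * D := by
    rw [hD]
    exact avg_le _ k n s (by omega) I hs (fun J hJ hc => hσ J (fun a ha b hb => hI (hJ ha) (hJ hb)) hc)
  -- the numbers of neighbours in `I`
  obtain ⟨c, hc⟩ : ∃ c : V → ℕ, ∀ x, c x = ∑ v ∈ I, if G.Adj v x then 1 else 0 := ⟨_, fun x => rfl⟩
  have hc0 : ∀ x ∈ I, c x = 0 := by
    intro x hx
    rw [hc]
    refine Finset.sum_eq_zero fun v hv => if_neg fun hvx => ?_
    exact hI hv hx hvx.ne hvx
  have hdU : ∀ v, dU G Finset.univ v = ∑ x : V, if G.Adj v x then 1 else 0 := by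
    intro v
    unfold dU
    rw [Finset.card_filter]
  have hDc : D = ∑ x ∈ Iᶜ, c x := by
    have g1 : D = ∑ x : V, c x := by
      rw [hD]
      simp only [hdU, hc]
      rw [Finset.sum_comm]
    rw [g1, ← Finset.sum_add_sum_compl I, Finset.sum_eq_zero hc0, Nat.zero_add]
  have hC2 : ∑ x ∈ Iᶜ, c x ^ 2 ≤ D + s * ((s - 1) * (s - 1)) := by
    have g1 : ∑ x ∈ Iᶜ, c x ^ 2 ≤ ∑ x : V, c x ^ 2 :=
      Finset.sum_le_sum_of_subset (Finset.subset_univ _)
    have g2 : ∑ x : V, c x ^ 2 = ∑ u ∈ I, ∑ v ∈ I,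
        (Finset.univ.filter (fun w => G.Adj u w ∧ G.Adj v w)).card := by
      have g3 : ∀ x : V, c x ^ 2 = ∑ u ∈ I, ∑ v ∈ I, if G.Adj u x ∧ G.Adj v x then 1 else 0 := by
        intro x
        rw [hc, sq, Finset.sum_mul_sum]
        refine Finset.sum_congr rfl fun u _ => Finset.sum_congr rfl fun v _ => ?_
        by_cases hu : G.Adj u x <;> by_cases hv : G.Adj v x <;> simp [hu, hv]
      simp only [g3, Finset.card_filter]
      rw [Finset.sum_comm]
      refine Finset.sum_congr rfl fun u _ => ?_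
      rw [Finset.sum_comm]
    refine g1.trans ?_
    rw [g2]
    have g4 : ∀ u ∈ I, ∑ v ∈ I, (Finset.univ.filter (fun w => G.Adj u w ∧ G.Adj v w)).card ≤
        dU G Finset.univ u + (s - 1) * (s - 1) := by
      intro u hu
      rw [← Finset.add_sum_erase I _ hu]
      refine Nat.add_le_add ?_ ?_
      · unfold dU
        refine Finset.card_le_card fun w hw => ?_
        rw [Finset.mem_filter] at hw ⊢
        exact ⟨hw.1, hw.2.1⟩
      · have g5 : ∀ v ∈ I.erase u, (Finset.univ.filter (fun w => G.Adj u w ∧ G.Adj v w)).card ≤ s - 1 := by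
          intro v hv
          have := hcd u hu v (Finset.mem_of_mem_erase hv) (Finset.ne_of_mem_erase hv).symm
          omega
        refine (Finset.sum_le_sum g5).trans ?_
        rw [Finset.sum_const, Finset.card_erase_of_mem hu, hs, smul_eq_mul]
    refine (Finset.sum_le_sum g4).trans ?_
    rw [Finset.sum_add_distrib, ← hD, Finset.sum_const, hs, smul_eq_mul]
  have hcs : D ^ 2 ≤ (n - s) * (D + s * ((s - 1) * (s - 1))) := by
    have g1 := sq_sum_le_card_mul_sum_sq (s := Iᶜ) (f := c)
    rw [← hDc, Finset.card_compl, hn, hs] at g1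
    exact g1.trans (Nat.mul_le_mul_left _ hC2)
  -- the computation
  have hns : s ≤ n := by
    rw [← hs, ← hn]
    exact Finset.card_le_univ I
  have hns' : s < n := by
    rcases Nat.lt_or_ge s n with h | h
    · exact h
    · exfalso
      have h2 : n - s = 0 := by omega
      rw [h2, Nat.zero_mul] at hcs
      have h3 : D = 0 := by
        rcases Nat.eq_zero_or_pos D with h | h
        · exact h
        · have : 0 < D ^ 2 := by positivity
          omega
      rw [h3, Nat.mul_zero] at h1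
      have h4 : 0 < s * n := Nat.mul_pos (by omega) (by omega)
      omega
  obtain ⟨t, rfl⟩ : ∃ t : ℕ, s = t + 1 + k + 1 := ⟨s - k - 2, by omega⟩
  obtain ⟨m, rfl⟩ : ∃ m : ℕ, n = m + 1 + (t + 1 + k + 1) := ⟨n - (t + 1 + k + 1) - 1, by omega⟩
  have e1 : m + 1 + (t + 1 + k + 1) - (t + 1 + k + 1) = m + 1 := by omega
  have e2 : t + 1 + k + 1 - 1 = t + 1 + k := by omega
  rw [e1, e2] at hcs
  clear hc hc0 hdU hDc hC2 hσ hcd hI hn hns hns' e1 e2 hD hs
  have hfin : ∀ S n M a T K D : ℤ, 0 < S → 0 < M → 0 < T → 0 ≤ K → 0 ≤ D → n = M + S → a = K + 1 → S = T + a →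
      S * n ≤ a * D → D ^ 2 ≤ M * (D + S * ((T + K) * (T + K))) → n + S + a ^ 2 ≤ a ^ 2 * (S + K * a) := by
    intro S n M a T K D hS hM hT hK hD0 hn ha hST h1 h2
    have ha0 : 0 < a := by omega
    have g0 : a * M ≤ S * n := by
      have : a * M ≤ S * M := mul_le_mul_of_nonneg_right (by omega) hM.le
      have h3 : S * M ≤ S * n := mul_le_mul_of_nonneg_left (by omega) hS.le
      exact this.trans h3
    have g1 : S * n * (S * n - a * M) ≤ a * D * (a * D - a * M) :=
      mul_le_mul h1 (by linarith) (by linarith) (by positivity)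
    have g2 : a * D * (a * D - a * M) ≤ S * (M * (a ^ 2 * ((T + K) * (T + K)))) := by
      have h3 : a ^ 2 * D ^ 2 ≤ a ^ 2 * (M * (D + S * ((T + K) * (T + K)))) :=
        mul_le_mul_of_nonneg_left h2 (by positivity)
      linarith [h3, sq a]
    have g3 : n * (S * n - a * M) ≤ M * (a ^ 2 * ((T + K) * (T + K))) := by
      have h4 : S * (n * (S * n - a * M)) ≤ S * (M * (a ^ 2 * ((T + K) * (T + K)))) := by
        calc S * (n * (S * n - a * M)) = S * n * (S * n - a * M) := by ring
          _ ≤ _ := g1.trans g2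
      exact le_of_mul_le_mul_left h4 hS
    have g4 : (T + K) * (T + K) ≤ T * (T + 2 * K + K ^ 2) := by
      nlinarith [mul_nonneg (show 0 ≤ T - 1 by omega) (sq_nonneg K)]
    have g5 : T * M * (n + S) ≤ n * (S * n - a * M) := by
      have : n * (S * n - a * M) = T * n ^ 2 + a * S * n := by
        rw [hST, hn, hST]
        ring
      rw [this]
      have h6 : M * (n + S) ≤ n ^ 2 := by
        rw [hn]
        nlinarith [sq_nonneg S]
      have h7 : 0 ≤ a * S * n := by
        have : 0 ≤ n := by omega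
        positivity
      nlinarith [mul_le_mul_of_nonneg_left h6 hT.le]
    have g6 : T * M * (n + S) ≤ T * M * (a ^ 2 * (T + 2 * K + K ^ 2)) := by
      have h8 : M * (a ^ 2 * ((T + K) * (T + K))) ≤ M * (a ^ 2 * (T * (T + 2 * K + K ^ 2))) :=
        mul_le_mul_of_nonneg_left (mul_le_mul_of_nonneg_left g4 (by positivity)) hM.le
      calc T * M * (n + S) ≤ M * (a ^ 2 * (T * (T + 2 * K + K ^ 2))) := g5.trans (g3.trans h8)
        _ = _ := by ring
    have g7 : n + S ≤ a ^ 2 * (T + 2 * K + K ^ 2) := le_of_mul_le_mul_left g6 (mul_pos hT hM)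
    have g8 : a ^ 2 * (S + K * a) - a ^ 2 = a ^ 2 * (T + 2 * K + K ^ 2) := by
      rw [hST, ha]
      ring
    linarith
  have hg := hfin (t + 1 + k + 1) (m + 1 + (t + 1 + k + 1)) (m + 1) (k + 1) (t + 1) k D (by positivity) (by positivity)
    (by positivity) (by positivity) (by positivity) rfl rfl (by ring) (by exact_mod_cast h1) (by exact_mod_cast hcs)
  exact_mod_cast hg

end Pool.Agent.TFC
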