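import Pool.Agent.TFL.Alpha
import Pool.Agent.TFC.Codeg
import Pool.Agent.TFC.Count

/-! Covers by at most `k` cycles in graphs of large order compared with the independence number. -/

namespace Pool.Agent.TFC

open List Pool.Agent.TF82 Pool.Agent.TFL

universe u

set_option linter.unusedSectionVars false
set_option linter.unusedVariables false

variable {V : Type u} [DecidableEq V]

/-- covers by two closures: degree sums at least `n`, and at least as many common neighbours as
the independence number -/
theorem cover_main4 [Fintype V] (k a : ℕ) (ha : 1 ≤ a)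
    (hn : k * (k + 2) * a + k * (k + 1) ^ 3 ≤ Fintype.card V) : ∀ (m : ℕ)
    (G : SimpleGraph V) [DecidableRel G.Adj],
    (Finset.univ.filter (fun p : V × V => ¬ G.Adj p.1 p.2)).card ≤ m →
    (∀ I : Finset V, G.IsIndepSet (I : Set V) → ∀ v ∈ I, I.card + 1 ≤ dU G Finset.univ v) →
    (∀ I : Finset V, G.IsIndepSet (I : Set V) → I.card = k + 1 →
      Fintype.card V ≤ ∑ v ∈ I, dU G Finset.univ v) →
    (∀ I : Finset V, G.IsIndepSet (I : Set V) → I.card = a + 1 →
      (a + 1) * (Fintype.card V - 1) < 2 * ∑ v ∈ I, dU G Finset.univ v) →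
    Cov G k := by
  intro m
  induction m with
  | zero =>
    intro G _ hm hC hσ hD
    have hall : ∀ x y, G.Adj x y := by
      intro x y
      by_contra h
      have : (x, y) ∈ (Finset.univ.filter (fun p : V × V => ¬ G.Adj p.1 p.2)) := by simp [h]
      rw [Finset.card_eq_zero.1 (Nat.le_zero.1 hm)] at this
      simp at this
    refine ⟨[], by simp, by simp, by simp, ?_⟩
    intro x
    exact absurd (hall x x) (G.loopless.irrefl x)
  | succ m ih =>
    intro G _ hm hC hσ hD
    classical
    -- adding an edge keeps the hypotheses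
    have key : ∀ u v : V, u ≠ v → ¬ G.Adj u v →
        ((∀ G' : SimpleGraph V, (∀ x y, G'.Adj x y → G.Adj x y ∨ (x = u ∧ y = v) ∨
          (x = v ∧ y = u)) → Cov G' k → Cov G k) → Cov G k) := by
      intro u v huv hna hstep
      let G' : SimpleGraph V := G ⊔ SimpleGraph.edge u v
      have hle : G ≤ G' := le_sup_left
      have hG' : ∀ x y, G'.Adj x y → G.Adj x y ∨ (x = u ∧ y = v) ∨ (x = v ∧ y = u) := by
        intro x y hxy
        rw [SimpleGraph.sup_adj, SimpleGraph.edge_adj] at hxy
        tauto
      have huv' : G'.Adj u v := by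
        rw [SimpleGraph.sup_adj, SimpleGraph.edge_adj]
        exact Or.inr ⟨Or.inl ⟨rfl, rfl⟩, huv⟩
      have hd : ∀ x, dU G Finset.univ x ≤ dU G' Finset.univ x := by
        intro x
        unfold dU
        apply Finset.card_le_card
        intro w hw
        rw [Finset.mem_filter] at hw ⊢
        exact ⟨hw.1, hle hw.2⟩
      have hind : ∀ I : Finset V, G'.IsIndepSet (I : Set V) → G.IsIndepSet (I : Set V) := by
        intro I hI a ha b hb hab h
        exact hI ha hb hab (hle h)
      apply hstep G' hG'
      apply ih G'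
      · have hsub : (Finset.univ.filter (fun p : V × V => ¬ G'.Adj p.1 p.2)) ⊂
            (Finset.univ.filter (fun p : V × V => ¬ G.Adj p.1 p.2)) := by
          rw [Finset.ssubset_iff_of_subset]
          · exact ⟨(u, v), by simp [hna], by simp [huv']⟩
          · intro p hp
            rw [Finset.mem_filter] at hp ⊢
            exact ⟨hp.1, fun h => hp.2 (hle h)⟩
        have := Finset.card_lt_card hsub
        omega
      · intro I hI v hv
        exact (hC I (hind I hI) v hv).trans (hd v)
      · intro I hI hIk
        exact (hσ I (hind I hI) hIk).trans (Finset.sum_le_sum (fun v _ => hd v))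
      · intro I hI hIk
        exact (hD I (hind I hI) hIk).trans_le
          (Nat.mul_le_mul_left _ (Finset.sum_le_sum (fun v _ => hd v)))
    by_cases hex : ∃ u v : V, u ≠ v ∧ ¬ G.Adj u v ∧
        Fintype.card V ≤ dU G Finset.univ u + dU G Finset.univ v
    · obtain ⟨u, v, huv, hna, hdeg⟩ := hex
      exact key u v huv hna (fun G' hG' h => closure_step hG' hdeg h)
    push Not at hex
    have hα : ∀ I : Finset V, G.IsIndepSet (I : Set V) → I.card ≤ a := by
      intro I hI
      by_contra hcon
      push Not at hcon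
      obtain ⟨J, hJI, hJ⟩ := Finset.exists_subset_card_eq (show a + 1 ≤ I.card from hcon)
      have hJind : G.IsIndepSet (J : Set V) := fun a ha b hb hab => hI (hJI ha) (hJI hb) hab
      have hlt := hD J hJind hJ
      have hpair : ∀ u ∈ J, ∀ v ∈ J.erase u,
          dU G Finset.univ u + dU G Finset.univ v ≤ Fintype.card V - 1 := by
        intro u hu v hv
        rw [Finset.mem_erase] at hv
        have := hex u v (Ne.symm hv.1) (hJind hu hv.2 (Ne.symm hv.1))
        omega
      have hsum : ∑ u ∈ J, ∑ v ∈ J.erase u, (dU G Finset.univ u + dU G Finset.univ v) ≤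
          ∑ u ∈ J, ∑ v ∈ J.erase u, (Fintype.card V - 1) :=
        Finset.sum_le_sum (fun u hu => Finset.sum_le_sum (fun v hv => hpair u hu v hv))
      have hl : ∑ u ∈ J, ∑ v ∈ J.erase u, (dU G Finset.univ u + dU G Finset.univ v) +
          ∑ u ∈ J, dU G Finset.univ u =
          a * ∑ u ∈ J, dU G Finset.univ u + (a + 1) * ∑ u ∈ J, dU G Finset.univ u := by
        have h1 : ∀ u ∈ J, ∑ v ∈ J.erase u, (dU G Finset.univ u + dU G Finset.univ v) +
            dU G Finset.univ u = a * dU G Finset.univ u + ∑ v ∈ J, dU G Finset.univ v := by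
          intro u hu
          rw [Finset.sum_add_distrib, Finset.sum_const, smul_eq_mul,
            Finset.card_erase_of_mem hu, hJ, Nat.add_sub_cancel, Nat.add_assoc,
            Finset.sum_erase_add _ _ hu]
        rw [← Finset.sum_add_distrib, Finset.sum_congr rfl h1, Finset.sum_add_distrib,
          Finset.sum_const, smul_eq_mul, hJ, ← Finset.mul_sum]
      have hr : ∑ u ∈ J, ∑ v ∈ J.erase u, (Fintype.card V - 1) =
          (a + 1) * (a * (Fintype.card V - 1)) := by
        rw [Finset.sum_congr rfl (fun u hu => by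
          rw [Finset.sum_const, smul_eq_mul, Finset.card_erase_of_mem hu, hJ,
            Nat.add_sub_cancel]), Finset.sum_const, smul_eq_mul, hJ]
      set S := ∑ u ∈ J, dU G Finset.univ u with hS
      set n1 := Fintype.card V - 1 with hn1
      have h2 : 2 * (a * S) ≤ (a + 1) * (a * n1) := by
        have h3 := hsum
        rw [hr] at h3
        nlinarith
      have h3 : a * (2 * S) ≤ a * ((a + 1) * n1) := by
        calc a * (2 * S) = 2 * (a * S) := by ring
          _ ≤ (a + 1) * (a * n1) := h2
          _ = a * ((a + 1) * n1) := by ring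
      have h4 : 2 * S ≤ (a + 1) * n1 := Nat.le_of_mul_le_mul_left h3 (by omega)
      omega
    by_cases hex2 : ∃ u v : V, u ≠ v ∧ ¬ G.Adj u v ∧
        ∀ I : Finset V, G.IsIndepSet (I : Set V) →
          I.card ≤ (Finset.univ.filter (fun w => G.Adj u w ∧ G.Adj v w)).card
    · obtain ⟨u, v, huv, hna, hcd⟩ := hex2
      refine key u v huv hna (fun G' hG' h => codeg_step hG' _ ?_ hcd h)
      intro w hw
      exact (Finset.mem_filter.1 hw).2
    push Not at hex2
    obtain ⟨s, ⟨I, hI, hs⟩, hmax⟩ := exists_max_nat
      (fun s => ∃ I : Finset V, G.IsIndepSet (I : Set V) ∧ I.card = s) a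
      ⟨0, ∅, by simp [SimpleGraph.IsIndepSet], by simp⟩ (by
        rintro s ⟨I, hI, rfl⟩
        exact hα I hI)
    have hmax' : ∀ J : Finset V, G.IsIndepSet (J : Set V) → J.card ≤ s :=
      fun J hJ => hmax _ ⟨J, hJ, rfl⟩
    rcases Nat.lt_or_ge s (k + 2) with hsk | hsk
    · apply cover_alpha k G hC hσ
      intro J hJ
      have := hmax' J hJ
      omega
    · exfalso
      have h1 : Fintype.card V + s + (k + 1) ^ 2 ≤ (k + 1) ^ 2 * (s + k * (k + 1)) := by
        apply codeg_count G k s I hI hs hsk hσ
        intro u hu v hv huv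
        obtain ⟨J, hJ, hJc⟩ := hex2 u v huv (hI hu hv huv)
        exact hJc.trans_le (hmax' J hJ)
      have h2 : s ≤ a := by rw [← hs]; exact hα I hI
      have h3 : k * (k + 2) * s ≤ k * (k + 2) * a := Nat.mul_le_mul_left _ h2
      have h4 : (k + 1) ^ 2 * (s + k * (k + 1)) = k * (k + 2) * s + s + k * (k + 1) ^ 3 := by ring
      have h5 : 0 < (k + 1) ^ 2 := by positivity
      omega

end Pool.Agent.TFC
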